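import Pool.Agent.helper24.TG.S4

set_option linter.all false
set_option autoImplicit false

/-!
# QL (MP_ce98d8_co)
-/

namespace Pool.Agent.helper24.TG

open Finset Classical
open Pool.Agent.helper11.Tight (nb eo mem_nb)

theorem QL_c (p : Par) : 10 ^ 6 ≤ p.c := by
  have h1 := p.hLog
  have h2 := p.hLam
  omega

theorem QL_B (p : Par) : 1 ≤ p.B :=
  lt_of_lt_of_le (pow_pos (lt_of_lt_of_le (by norm_num) (QL_c p)) 200) p.N7

theorem QL_M (p : Par) : 10 ^ 6 ≤ p.c * p.B :=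
  le_trans (QL_c p) (Nat.le_mul_of_pos_right _ (QL_B p))

/-- `q ≥ (c B)^200` -/
theorem QL_q (p : Par) : (p.c * p.B) ^ 200 ≤ p.q := by
  have hd : 0 < p.d := lt_of_lt_of_le (by norm_num) p.hd
  have h1 := p.N2
  have h2 := p.N3'
  refine Nat.le_of_mul_le_mul_right (?_ : (p.c * p.B) ^ 200 * p.d ≤ p.q * p.d) hd
  have h3 : (p.c * p.B) ^ 100 * p.N ≤ (p.c * p.B) ^ 100 * p.L * (p.K + 1) * p.N := by
    have h4 : 1 ≤ p.L * (p.K + 1) := Nat.mul_pos p.hL (Nat.succ_pos _)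
    calc (p.c * p.B) ^ 100 * p.N = (p.c * p.B) ^ 100 * 1 * p.N := by rw [mul_one]
      _ ≤ (p.c * p.B) ^ 100 * (p.L * (p.K + 1)) * p.N :=
        Nat.mul_le_mul_right _ (Nat.mul_le_mul_left _ h4)
      _ = _ := by ring
  calc (p.c * p.B) ^ 200 * p.d = (p.c * p.B) ^ 100 * ((p.c * p.B) ^ 100 * p.d) := by ring
    _ ≤ (p.c * p.B) ^ 100 * p.N := Nat.mul_le_mul_left _ h2
    _ ≤ _ := h3
    _ ≤ _ := h1

/-- `16 f1 ≤ k` -/
theorem QL_f1 (p : Par) (k : ℕ) (hk : p.q < k * (p.c ^ 66 * p.B ^ 17)) : 16 * p.f1 ≤ k := by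
  have hd : 0 < p.d := lt_of_lt_of_le (by norm_num) p.hd
  have hc := QL_c p
  have hB := QL_B p
  have hM := QL_M p
  have h1 : p.d * (p.L * p.N * p.Lam / p.d) ≤ p.L * p.N * p.Lam := Nat.mul_div_le _ _
  set f := p.L * p.N * p.Lam / p.d with hf
  have hf1 : p.f1 = f + 1 := rfl
  -- `(c B)^100 f ≤ q Lam`
  have h2 : (p.c * p.B) ^ 100 * f ≤ p.q * p.Lam := by
    refine Nat.le_of_mul_le_mul_right (?_ : _ * p.d ≤ _ * p.d) hd
    have h3 : p.L * p.N ≤ p.L * (p.K + 1) * p.N := by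
      have : p.L * 1 * p.N ≤ p.L * (p.K + 1) * p.N :=
        Nat.mul_le_mul_right _ (Nat.mul_le_mul_left _ (Nat.succ_pos _))
      simpa using this
    calc (p.c * p.B) ^ 100 * f * p.d = (p.c * p.B) ^ 100 * (p.d * f) := by ring
      _ ≤ (p.c * p.B) ^ 100 * (p.L * p.N * p.Lam) := Nat.mul_le_mul_left _ h1
      _ ≤ (p.c * p.B) ^ 100 * (p.L * (p.K + 1) * p.N * p.Lam) :=
        Nat.mul_le_mul_left _ (Nat.mul_le_mul_right _ h3)
      _ = ((p.c * p.B) ^ 100 * p.L * (p.K + 1) * p.N) * p.Lam := by ring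
      _ ≤ (p.q * p.d) * p.Lam := Nat.mul_le_mul_right _ p.N2
      _ = p.q * p.Lam * p.d := by ring
  have hMp : 0 < p.c * p.B := by omega
  -- `c^66 B^17 ≤ (c B)^66`
  have h4 : p.c ^ 66 * p.B ^ 17 ≤ (p.c * p.B) ^ 66 := by
    rw [mul_pow]
    exact Nat.mul_le_mul_left _ (Nat.pow_le_pow_right hB (by norm_num))
  have h5 : p.q ≤ k * (p.c * p.B) ^ 66 := hk.le.trans (Nat.mul_le_mul_left _ h4)
  have hLam : p.Lam ≤ p.c * p.B := by
    have := p.hLog
    have : p.Lam ≤ p.c := by omega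
    exact this.trans (Nat.le_mul_of_pos_right _ hB)
  -- `(c B)^33 f ≤ k`
  have h6 : (p.c * p.B) ^ 33 * f ≤ k := by
    refine Nat.le_of_mul_le_mul_left (?_ : (p.c * p.B) ^ 67 * _ ≤ (p.c * p.B) ^ 67 * k)
      (pow_pos hMp _)
    calc (p.c * p.B) ^ 67 * ((p.c * p.B) ^ 33 * f) = (p.c * p.B) ^ 100 * f := by ring
      _ ≤ p.q * p.Lam := h2
      _ ≤ (k * (p.c * p.B) ^ 66) * (p.c * p.B) := Nat.mul_le_mul h5 hLam
      _ = _ := by ring
  -- `32 ≤ k`
  have h7 : 32 ≤ k := by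
    by_contra hlt
    have h8 : k ≤ p.c * p.B := by omega
    have h9 : (p.c * p.B) ^ 200 ≤ (p.c * p.B) ^ 67 := by
      calc (p.c * p.B) ^ 200 ≤ p.q := QL_q p
        _ ≤ k * (p.c * p.B) ^ 66 := h5
        _ ≤ (p.c * p.B) * (p.c * p.B) ^ 66 := Nat.mul_le_mul_right _ h8
        _ = _ := by ring
    have h10 : (p.c * p.B) ^ 67 < (p.c * p.B) ^ 200 :=
      Nat.pow_lt_pow_right (by omega) (by norm_num)
    omega
  have h11 : 32 * f ≤ k := by
    refine le_trans (Nat.mul_le_mul_right _ ?_) h6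
    calc 32 ≤ (p.c * p.B) := by omega
      _ = (p.c * p.B) ^ 1 := (pow_one _).symm
      _ ≤ (p.c * p.B) ^ 33 := Nat.pow_le_pow_right hMp (by norm_num)
  omega

/-- the bad label vectors -/
theorem QL_bad (hQA2 : QA2_stmt) (p : Par) {V : Type} [Fintype V] [DecidableEq V]
    (T : SimpleGraph V) (MM : Finset (Finset V)) (hT : TSp p T MM) (k : ℕ) (hk1 : 1 ≤ k)
    (hk : 16 * p.f1 ≤ k) :
    (BadU T k (p.N - p.N / p.E)).card * (p.c * p.B) ^ (15 * k + 1) ≤ p.N ^ k := by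
  have hM := QL_M p
  have hMp : 0 < p.c * p.B := by omega
  have h := hQA2 p V T MM hT k
  set b := (BadU T k (p.N - p.N / p.E)).card with hb
  have hE : (p.c * p.B) ^ 100 ≤ p.E := p.N8
  have hEp : 0 < p.E := lt_of_lt_of_le (pow_pos hMp _) hE
  have h1 : b ^ 2 * p.E ^ (k - 2 * p.f1) ≤ 16 ^ k * p.N ^ (2 * k) := by
    refine Nat.le_of_mul_le_mul_right (?_ : _ * p.E ^ (2 * p.f1) ≤ _ * p.E ^ (2 * p.f1))
      (pow_pos hEp _)
    rw [mul_assoc, ← pow_add, Nat.sub_add_cancel (by omega)]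
    exact h
  have h2 : (p.c * p.B) ^ (87 * k) ≤ p.E ^ (k - 2 * p.f1) := by
    calc (p.c * p.B) ^ (87 * k) ≤ (p.c * p.B) ^ (100 * (k - 2 * p.f1)) :=
          Nat.pow_le_pow_right hMp (by omega)
      _ = ((p.c * p.B) ^ 100) ^ (k - 2 * p.f1) := by rw [pow_mul]
      _ ≤ _ := Nat.pow_le_pow_left hE _
  have h3 : (b * (p.c * p.B) ^ (15 * k + 1)) ^ 2 ≤ (p.N ^ k) ^ 2 := by
    refine Nat.le_of_mul_le_mul_right (?_ : _ * 16 ^ k ≤ _ * 16 ^ k) (by positivity)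
    calc (b * (p.c * p.B) ^ (15 * k + 1)) ^ 2 * 16 ^ k
        ≤ (b * (p.c * p.B) ^ (15 * k + 1)) ^ 2 * (p.c * p.B) ^ k :=
          Nat.mul_le_mul_left _ (Nat.pow_le_pow_left (by omega) _)
      _ = b ^ 2 * (p.c * p.B) ^ (31 * k + 2) := by
          rw [mul_pow, mul_assoc, ← pow_mul, ← pow_add]
          congr 2
          ring
      _ ≤ b ^ 2 * (p.c * p.B) ^ (87 * k) :=
          Nat.mul_le_mul_left _ (Nat.pow_le_pow_right hMp (by omega))
      _ ≤ b ^ 2 * p.E ^ (k - 2 * p.f1) := Nat.mul_le_mul_left _ h2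
      _ ≤ 16 ^ k * p.N ^ (2 * k) := h1
      _ = (p.N ^ k) ^ 2 * 16 ^ k := by rw [← pow_mul, mul_comm k 2]; ring
  exact (Nat.pow_le_pow_iff_left two_ne_zero).mp h3

/-- few conflicts -/
theorem QL_few (p : Par) (k s : ℕ) (hk : p.c ^ 4 * k ≤ p.q) (hs : p.c ^ 4 * s ≤ 4 * p.q + p.c ^ 4) :
    (p.q + 1) ^ s * (p.c * p.B) ^ (15 * k + 1) ≤ p.E ^ (p.q / 2) := by
  have hc := QL_c p
  have hM := QL_M p
  have hMp : 0 < p.c * p.B := by omega
  have hB := QL_B p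
  have hE : (p.c * p.B) ^ 100 ≤ p.E := p.N8
  have hcM : p.c ≤ p.c * p.B := Nat.le_mul_of_pos_right _ hB
  have hq : p.c ^ 4 ≤ p.q := by
    refine le_trans ?_ (QL_q p)
    calc p.c ^ 4 ≤ (p.c * p.B) ^ 4 := Nat.pow_le_pow_left hcM _
      _ ≤ _ := Nat.pow_le_pow_right hMp (by norm_num)
  have hq2 : 2 ≤ p.q := by
    refine le_trans ?_ hq
    calc 2 ≤ p.c := by omega
      _ = p.c ^ 1 := (pow_one _).symm
      _ ≤ _ := Nat.pow_le_pow_right (by omega) (by norm_num)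
  have hc3 : 5 ≤ p.c ^ 3 := by
    calc 5 ≤ p.c := by omega
      _ = p.c ^ 1 := (pow_one _).symm
      _ ≤ _ := Nat.pow_le_pow_right (by omega) (by norm_num)
  -- `c s ≤ q`
  have h1 : p.c * s ≤ p.q := by
    refine Nat.le_of_mul_le_mul_left (?_ : p.c ^ 3 * _ ≤ p.c ^ 3 * _) (pow_pos (by omega) 3)
    calc p.c ^ 3 * (p.c * s) = p.c ^ 4 * s := by ring
      _ ≤ 4 * p.q + p.c ^ 4 := hs
      _ ≤ 4 * p.q + p.q := by omega
      _ = 5 * p.q := by ring
      _ ≤ p.c ^ 3 * p.q := Nat.mul_le_mul_right _ hc3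
  have hLam : p.Lam ≤ p.c := by have := p.hLog; omega
  have h2 : p.Lam * s ≤ p.q := le_trans (Nat.mul_le_mul_right _ hLam) h1
  have h3 : 15 * k ≤ p.q := by
    refine le_trans (Nat.mul_le_mul_right _ ?_) hk
    calc 15 ≤ p.c := by omega
      _ = p.c ^ 1 := (pow_one _).symm
      _ ≤ _ := Nat.pow_le_pow_right (by omega) (by norm_num)
  have h4 : p.q + 1 ≤ 2 ^ p.Lam := by
    refine le_trans ?_ p.s1
    have hC : 1 ≤ p.C := by
      rcases Nat.eq_zero_or_pos p.C with h | h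
      · have h1 := p.hC1
        rw [h] at h1
        have hd : 0 < p.d := lt_of_lt_of_le (by norm_num) p.hd
        have : 0 < p.c ^ 3 * p.q * p.d :=
          Nat.mul_pos (Nat.mul_pos (pow_pos (by omega) _) (by omega)) hd
        omega
      · exact h
    calc p.q + 1 ≤ p.q * p.q := by nlinarith
      _ = 1 * 1 * p.q ^ 2 * 1 := by ring
      _ ≤ 4 * p.B * p.q ^ 2 * p.C := by
        refine Nat.mul_le_mul (Nat.mul_le_mul_right _ (Nat.mul_le_mul (by norm_num) hB)) hC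
  calc (p.q + 1) ^ s * (p.c * p.B) ^ (15 * k + 1)
      ≤ (2 ^ p.Lam) ^ s * (p.c * p.B) ^ (15 * k + 1) :=
        Nat.mul_le_mul_right _ (Nat.pow_le_pow_left h4 _)
    _ = 2 ^ (p.Lam * s) * (p.c * p.B) ^ (15 * k + 1) := by rw [← pow_mul]
    _ ≤ (p.c * p.B) ^ (p.Lam * s) * (p.c * p.B) ^ (15 * k + 1) :=
        Nat.mul_le_mul_right _ (Nat.pow_le_pow_left (by omega) _)
    _ = (p.c * p.B) ^ (p.Lam * s + (15 * k + 1)) := (pow_add _ _ _).symm
    _ ≤ (p.c * p.B) ^ (100 * (p.q / 2)) := Nat.pow_le_pow_right hMp (by omega)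
    _ = ((p.c * p.B) ^ 100) ^ (p.q / 2) := by rw [pow_mul]
    _ ≤ _ := Nat.pow_le_pow_left hE _

/-- QL -/
theorem QL (hQX : QX_stmt) (hQA2 : QA2_stmt) : QL_stmt := by
  intro p P O A V _ _ _ _ _ _ _ _ _ H v T MM v0 hA hT hH3 z i A1 hz hA1 hdis hinj hk1 hk4 hkq
  have hc := QL_c p
  have hM := QL_M p
  have hMp : 0 < p.c * p.B := by omega
  have hB := QL_B p
  have hNp : 0 < p.N := p.hN
  have hc4 : 0 < p.c ^ 4 := pow_pos (by omega) _
  have hE : (p.c * p.B) ^ 100 ≤ p.E := p.N8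
  have hEp : 0 < p.E := lt_of_lt_of_le (pow_pos hMp _) hE
  set k := A1.card with hk
  set h := p.N - p.N / p.E with hh
  set s := (4 * p.q + p.c ^ 4 - 1) / p.c ^ 4 with hs
  have hs1 : 4 * p.q ≤ p.c ^ 4 * s := by
    have h1 := Nat.lt_mul_div_succ (4 * p.q + p.c ^ 4 - 1) hc4
    rw [← hs, Nat.mul_add, Nat.mul_one] at h1
    omega
  have hs2 : p.c ^ 4 * s ≤ 4 * p.q + p.c ^ 4 := by
    have h1 := Nat.mul_div_le (4 * p.q + p.c ^ 4 - 1) (p.c ^ 4)
    rw [← hs] at h1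
    omega
  have hq : p.c ^ 4 ≤ p.q := by
    refine le_trans ?_ (QL_q p)
    calc p.c ^ 4 ≤ (p.c * p.B) ^ 4 := Nat.pow_le_pow_left (Nat.le_mul_of_pos_right _ hB) _
      _ ≤ _ := Nat.pow_le_pow_right hMp (by norm_num)
  have hs3 : 4 * s ≤ p.q := by
    refine Nat.le_of_mul_le_mul_left (?_ : p.c ^ 4 * _ ≤ p.c ^ 4 * _) hc4
    have h20 : 20 ≤ p.c ^ 4 := by
      calc 20 ≤ p.c := by omega
        _ = p.c ^ 1 := (pow_one _).symm
        _ ≤ _ := Nat.pow_le_pow_right (by omega) (by norm_num)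
    calc p.c ^ 4 * (4 * s) = 4 * (p.c ^ 4 * s) := by ring
      _ ≤ 4 * (4 * p.q + p.c ^ 4) := Nat.mul_le_mul_left _ hs2
      _ ≤ 4 * (4 * p.q + p.q) := by omega
      _ = 20 * p.q := by ring
      _ ≤ p.c ^ 4 * p.q := Nat.mul_le_mul_right _ h20
  have hhN : h ≤ p.N := Nat.sub_le _ _
  have hQ := hQX p P O A V H v T v0 hA hT.card_V hH3 z i A1 h s hz hA1 hdis hinj hk4 hhN hs3
  have hf1 := QL_f1 p k hkq
  have hbad := QL_bad hQA2 p T MM hT k hk1 hf1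
  have hfew := QL_few p k s hk4 hs2
  rw [← hk] at hQ
  -- real numbers
  have hNr : (0 : ℝ) < (p.N : ℝ) ^ k := by positivity
  have hM1 : (10 : ℝ) ^ 6 ≤ (p.c : ℝ) * p.B := by exact_mod_cast hM
  have hexp : 2 * Real.exp 8 ≤ (p.c : ℝ) * p.B := by
    have h1 : Real.exp 8 ≤ 3000 := by
      have h2 : Real.exp 1 < 2.7182818286 := Real.exp_one_lt_d9
      calc Real.exp 8 = (Real.exp 1) ^ 8 := by rw [← Real.exp_nat_mul]; norm_num
        _ ≤ 2.7182818286 ^ 8 := pow_le_pow_left₀ (Real.exp_pos _).le h2.le _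
        _ ≤ 3000 := by norm_num
    linarith
  have hX : ((p.c : ℝ) ^ 15 * (p.B : ℝ) ^ 4) ^ k ≤ ((p.c : ℝ) * p.B) ^ (15 * k) := by
    rw [pow_mul]
    refine pow_le_pow_left₀ (by positivity) ?_ _
    rw [mul_pow]
    refine mul_le_mul_of_nonneg_left ?_ (by positivity)
    exact pow_le_pow_right₀ (by exact_mod_cast hB) (by norm_num)
  have hbadr : ((BadU T k h).card : ℝ) * ((p.c : ℝ) * p.B) ^ (15 * k + 1) ≤ (p.N : ℝ) ^ k := by
    exact_mod_cast hbad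
  have hfewr : ((p.q : ℝ) + 1) ^ s * ((p.c : ℝ) * p.B) ^ (15 * k + 1) ≤ (p.E : ℝ) ^ (p.q / 2) := by
    exact_mod_cast hfew
  have hratio : ((p.N : ℝ) - h) / p.N ≤ 1 / p.E := by
    have h1 : ((p.N : ℝ) - h) = ((p.N / p.E : ℕ) : ℝ) := by
      have h2 : h + p.N / p.E = p.N := by
        rw [hh]; exact Nat.sub_add_cancel (Nat.div_le_self _ _)
      have h3 : (h : ℝ) + ((p.N / p.E : ℕ) : ℝ) = p.N := by exact_mod_cast h2
      linarith
    rw [h1, div_le_div_iff₀ (by exact_mod_cast hNp) (by exact_mod_cast hEp)]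
    have h4 : p.N / p.E * p.E ≤ 1 * p.N := by
      rw [one_mul]; exact Nat.div_mul_le_self _ _
    exact_mod_cast h4
  have hratio0 : 0 ≤ ((p.N : ℝ) - h) / p.N := by
    apply div_nonneg _ (Nat.cast_nonneg _)
    have : (h : ℝ) ≤ p.N := by exact_mod_cast hhN
    linarith
  have hR : ((p.q : ℝ) + 1) ^ s * (((p.N : ℝ) - h) / p.N) ^ (p.q / 2) *
      ((p.c : ℝ) * p.B) ^ (15 * k + 1) ≤ 1 := by
    have h1 : (((p.N : ℝ) - h) / p.N) ^ (p.q / 2) ≤ (1 / (p.E : ℝ)) ^ (p.q / 2) :=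
      pow_le_pow_left₀ hratio0 hratio _
    have hEr : (0 : ℝ) < (p.E : ℝ) ^ (p.q / 2) := by
      have : (0 : ℝ) < p.E := by exact_mod_cast hEp
      positivity
    calc ((p.q : ℝ) + 1) ^ s * (((p.N : ℝ) - h) / p.N) ^ (p.q / 2) *
          ((p.c : ℝ) * p.B) ^ (15 * k + 1)
        ≤ ((p.q : ℝ) + 1) ^ s * (1 / (p.E : ℝ)) ^ (p.q / 2) *
          ((p.c : ℝ) * p.B) ^ (15 * k + 1) := by
          refine mul_le_mul_of_nonneg_right (mul_le_mul_of_nonneg_left h1 (by positivity))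
            (by positivity)
      _ = (((p.q : ℝ) + 1) ^ s * ((p.c : ℝ) * p.B) ^ (15 * k + 1)) / (p.E : ℝ) ^ (p.q / 2) := by
          rw [div_pow, one_pow]; ring
      _ ≤ 1 := by rw [div_le_one hEr]; exact hfewr
  -- put together
  set X : ℝ := ((p.c : ℝ) ^ 15 * (p.B : ℝ) ^ 4) ^ k with hXd
  set M : ℝ := (p.c : ℝ) * p.B with hMd
  set b : ℝ := ((BadU T k h).card : ℝ) with hbd
  set R : ℝ := ((p.q : ℝ) + 1) ^ s * (((p.N : ℝ) - h) / p.N) ^ (p.q / 2) with hRd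
  have hM0 : 0 < M := by linarith
  have hb0 : 0 ≤ b := Nat.cast_nonneg _
  have hR0 : 0 ≤ R := by
    rw [hRd]; exact mul_nonneg (by positivity) (pow_nonneg hratio0 _)
  have hX0 : 0 ≤ X := by positivity
  have e1 : 2 * Real.exp 8 * X ≤ M ^ (15 * k + 1) := by
    rw [pow_succ]
    calc 2 * Real.exp 8 * X ≤ M * M ^ (15 * k) :=
          mul_le_mul hexp hX hX0 hM0.le
      _ = _ := mul_comm _ _
  have e2 : 2 * Real.exp 8 * X * b ≤ (p.N : ℝ) ^ k :=
    le_trans (by rw [mul_comm b]; exact mul_le_mul_of_nonneg_right e1 hb0) hbadr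
  have e3 : 2 * Real.exp 8 * X * R ≤ 1 :=
    le_trans (by rw [mul_comm R]; exact mul_le_mul_of_nonneg_right e1 hR0) hR
  have hcnt : (((Psi p H v0).filter (fun φ => p.c ^ 4 * (conf p H v T φ i z A1).card <
      4 * p.q)).card : ℝ) ≤ (((Psi p H v0).filter (fun φ =>
        (conf p H v T φ i z A1).card < s)).card : ℝ) := by
    have : ((Psi p H v0).filter (fun φ => p.c ^ 4 * (conf p H v T φ i z A1).card <
      4 * p.q)).card ≤ ((Psi p H v0).filter (fun φ =>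
        (conf p H v T φ i z A1).card < s)).card := by
      refine Finset.card_le_card ?_
      intro φ hφ
      simp only [Finset.mem_filter] at hφ ⊢
      refine ⟨hφ.1, ?_⟩
      by_contra hge
      push Not at hge
      have := Nat.mul_le_mul_left (p.c ^ 4) hge
      omega
    exact_mod_cast this
  have hfin : (((Psi p H v0).filter (fun φ => p.c ^ 4 * (conf p H v T φ i z A1).card <
      4 * p.q)).card : ℝ) * X * (p.N : ℝ) ^ k ≤ ((Psi p H v0).card : ℝ) * (p.N : ℝ) ^ k := by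
    have hPsi : (0 : ℝ) ≤ ((Psi p H v0).card : ℝ) := Nat.cast_nonneg _
    have hQ' : (((Psi p H v0).filter (fun φ =>
        (conf p H v T φ i z A1).card < s)).card : ℝ) * (p.N : ℝ) ^ k ≤
        ((Psi p H v0).card : ℝ) * Real.exp 8 * (b + (p.N : ℝ) ^ k * R) := by
      refine hQ.trans (le_of_eq ?_)
      rw [hRd]; ring
    calc (((Psi p H v0).filter (fun φ => p.c ^ 4 * (conf p H v T φ i z A1).card <
          4 * p.q)).card : ℝ) * X * (p.N : ℝ) ^ k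
        ≤ (((Psi p H v0).filter (fun φ => (conf p H v T φ i z A1).card < s)).card : ℝ) * X *
          (p.N : ℝ) ^ k := by
          refine mul_le_mul_of_nonneg_right (mul_le_mul_of_nonneg_right hcnt hX0) hNr.le
      _ = X * ((((Psi p H v0).filter (fun φ =>
            (conf p H v T φ i z A1).card < s)).card : ℝ) * (p.N : ℝ) ^ k) := by ring
      _ ≤ X * (((Psi p H v0).card : ℝ) * Real.exp 8 * (b + (p.N : ℝ) ^ k * R)) :=
          mul_le_mul_of_nonneg_left hQ' hX0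
      _ = ((Psi p H v0).card : ℝ) * ((2 * Real.exp 8 * X * b) / 2 +
            (p.N : ℝ) ^ k * (2 * Real.exp 8 * X * R) / 2) := by ring
      _ ≤ ((Psi p H v0).card : ℝ) * ((p.N : ℝ) ^ k / 2 + (p.N : ℝ) ^ k * 1 / 2) := by
          refine mul_le_mul_of_nonneg_left (add_le_add (by linarith) ?_) hPsi
          have := mul_le_mul_of_nonneg_left e3 hNr.le
          linarith
      _ = _ := by ring
  have hfin2 := le_of_mul_le_mul_right hfin hNr
  have : ((((Psi p H v0).filter (fun φ => p.c ^ 4 * (conf p H v T φ i z A1).card <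
      4 * p.q)).card * (p.c ^ 15 * p.B ^ 4) ^ k : ℕ) : ℝ) ≤ ((Psi p H v0).card : ℝ) := by
    push_cast
    exact hfin2
  exact_mod_cast this

end Pool.Agent.helper24.TG
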