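import Pool.Agent.helper24.TG.S3

set_option linter.all false
set_option autoImplicit false

/-!
# RG1b (MP_ce98d8_co)
-/

namespace Pool.Agent.helper24.TG

open Finset Classical
open Pool.Agent.helper11.Tight (nb eo mem_nb)

/-- independent sets of `T` have at most `d` elements -/
theorem RG1b_ind {p : Par} {V : Type} [Fintype V] [DecidableEq V] {T : SimpleGraph V}
    {MM : Finset (Finset V)} (hT : TSp p T MM) (U : Finset V) (hU : IndT T U) : U.card ≤ p.d := by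
  obtain ⟨M, hM, h⟩ := hT.stab U hU
  by_contra hlt
  push Not at hlt
  have h1 : p.K * (p.d + 1) ≤ p.K * U.card := Nat.mul_le_mul_left _ hlt
  have h2 : p.K * (p.d + 1) = p.K * p.d + p.K := by ring
  have h3 : (U \ M).card = 0 := by omega
  have h4 : U ⊆ M := by
    rw [Finset.card_eq_zero, Finset.sdiff_eq_empty_iff_subset] at h3
    exact h3
  have h5 := Finset.card_le_card h4
  rw [hT.card_M M hM] at h5
  omega

/-- containers of the independent sets of `T` -/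
theorem RG1b_cont (hc : CT3_stmt) {p : Par} {V : Type} [Fintype V] [DecidableEq V]
    {T : SimpleGraph V} {MM : Finset (Finset V)} (hT : TSp p T MM) :
    ∃ F : Finset (Finset V), F.card ≤ 2 ^ (2 * p.Lam * p.fT) ∧
      (∀ W ∈ F, W.card ≤ 2 * p.tau * p.d) ∧ ∀ U : Finset V, IndT T U → ∃ W ∈ F, U ⊆ W := by
  have hd : 1 ≤ p.d := le_trans (by norm_num) p.hd
  have htau := p.htau
  have htd : 1 ≤ p.tau * p.d := Nat.mul_pos htau hd
  have hnum : Fintype.card V * (p.La - 1) ^ p.fT < (p.tau * p.d) * p.La ^ p.fT := by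
    have h1 := sub_one_pow_lt p.La p.fT (2 * p.Lam) p.hLa (by have := p.hLam; omega)
      (by unfold Par.fT; nlinarith)
    rw [hT.card_V]
    calc p.N * (p.La - 1) ^ p.fT ≤ 2 ^ (2 * p.Lam) * (p.La - 1) ^ p.fT := by
          refine Nat.mul_le_mul_right _ (p.s2.trans ?_)
          exact Nat.pow_le_pow_right (by norm_num) (by omega)
      _ = (p.La - 1) ^ p.fT * 2 ^ (2 * p.Lam) := Nat.mul_comm _ _
      _ < p.La ^ p.fT := h1
      _ = 1 * p.La ^ p.fT := (one_mul _).symm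
      _ ≤ _ := Nat.mul_le_mul_right _ htd
  obtain ⟨F, hF1, hF2, hF3⟩ := hc V T (p.tau * p.d) p.La p.fT p.d htd p.hLa hT.sat
    (fun U hU => RG1b_ind hT U hU) hnum
  refine ⟨F, hF1.trans ?_, fun W hW => (hF2 W hW).trans ?_, hF3⟩
  · rw [pow_mul]
    refine Nat.pow_le_pow_left ?_ _
    rw [hT.card_V]
    have h1 := p.s2
    have h2 : 1 ≤ 2 ^ p.Lam := Nat.one_le_two_pow
    have h3 : 2 ^ (p.Lam + 1) ≤ 2 ^ (2 * p.Lam) :=
      Nat.pow_le_pow_right (by norm_num) (by have := p.hLam; omega)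
    rw [pow_succ] at h3
    omega
  · have : p.d ≤ p.tau * p.d := Nat.le_mul_of_pos_left _ htau
    nlinarith

/-- the numeric condition of the union bound -/
theorem RG1b_num (p : Par) (Y k : ℕ) (hY : p.B * p.q ≤ 2 * p.c ^ p.x1 * Y) (hk : 4 * p.B * k ≤ Y) :
    (2 : ℝ) ^ (2 * p.Lam * p.fT + k) ≤ Real.exp ((Y / 2 : ℝ) / p.B) := by
  have hB : 0 < p.B := by
    have := p.N7
    have hc : 0 < p.c := by have := p.hLog; have := p.hLam; omega
    exact lt_of_lt_of_le (pow_pos hc _) this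
  have hB' : (0 : ℝ) < p.B := by exact_mod_cast hB
  have hc : 10 ^ 6 * p.Lam ≤ p.c := p.hLog
  have hc1 : 1 ≤ p.c := by have := p.hLam; omega
  -- `8 B Lam fT ≤ Y`
  have key : 4 * p.B * (2 * p.Lam * p.fT) ≤ Y := by
    have h4 := p.N4
    have hx1 : p.x1 = p.kT + 5 := rfl
    have hp : 0 < 2 * p.c ^ p.x1 := by positivity
    refine Nat.le_of_mul_le_mul_left (le_trans ?_ hY) hp
    have h5 : p.B * (p.La * p.c ^ (p.kT + 12)) ≤ p.B * p.q := Nat.mul_le_mul_left _ h4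
    refine le_trans ?_ h5
    unfold Par.fT
    rw [hx1, pow_add, pow_add]
    have h6 : 32 * (p.Lam * p.Lam) ≤ p.c ^ 7 := by
      have h7 : p.Lam ≤ p.c := by omega
      calc 32 * (p.Lam * p.Lam) ≤ p.c * (p.c * p.c) := by
            refine Nat.mul_le_mul ?_ (Nat.mul_le_mul h7 h7)
            have := p.hLam; omega
        _ = p.c ^ 3 := by ring
        _ ≤ p.c ^ 7 := Nat.pow_le_pow_right hc1 (by norm_num)
    calc 2 * (p.c ^ p.kT * p.c ^ 5) * (4 * p.B * (2 * p.Lam * (2 * p.La * p.Lam)))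
        = (p.B * p.La * p.c ^ p.kT * p.c ^ 5) * (32 * (p.Lam * p.Lam)) := by ring
      _ ≤ (p.B * p.La * p.c ^ p.kT * p.c ^ 5) * p.c ^ 7 := Nat.mul_le_mul_left _ h6
      _ = p.B * (p.La * (p.c ^ p.kT * p.c ^ 12)) := by ring
  have h1 : ((2 * p.Lam * p.fT + k : ℕ) : ℝ) ≤ (Y / 2 : ℝ) / p.B := by
    rw [le_div_iff₀ hB']
    have h2 : 4 * p.B * (2 * p.Lam * p.fT + k) ≤ 2 * Y := by
      rw [Nat.mul_add]; omega
    have h3 : (4 : ℝ) * p.B * ((2 * p.Lam * p.fT + k : ℕ) : ℝ) ≤ 2 * Y := by exact_mod_cast h2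
    nlinarith
  have h2 : (2 : ℝ) ≤ Real.exp 1 := by
    have := Real.exp_one_gt_d9; linarith
  calc (2 : ℝ) ^ (2 * p.Lam * p.fT + k) ≤ (Real.exp 1) ^ (2 * p.Lam * p.fT + k) :=
        pow_le_pow_left₀ (by norm_num) h2 _
    _ = Real.exp ((2 * p.Lam * p.fT + k : ℕ) : ℝ) := by rw [← Real.exp_nat_mul, mul_one]
    _ ≤ _ := Real.exp_le_exp.mpr h1

/-- the mean is small -/
theorem RG1b_mean (p : Par) (Y z w : ℕ) (hY : p.B * p.q ≤ 2 * p.c ^ p.x1 * Y)
    (hz : z ≤ 2 * p.tau * p.d) (hw : w ≤ 10 * p.W0) :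
    2 * ((z : ℝ) / p.N * w) + (Y / 2 : ℝ) ≤ Y := by
  have hc : 10 ^ 6 * p.Lam ≤ p.c := p.hLog
  have hc1 : 10 ^ 6 ≤ p.c := by have := p.hLam; omega
  have hN : (0 : ℝ) < p.N := by exact_mod_cast (lt_of_lt_of_le one_pos p.hN)
  have h3 := p.N3
  have hx1 : p.x1 = p.kT + 5 := rfl
  -- `4 z w ≤ N Y`
  have key : 4 * (z * w) ≤ p.N * Y := by
    have hc5 : 0 < p.c ^ p.kT := pow_pos (by omega) _
    have hcp : 0 < p.c ^ p.kT * p.c ^ 12 := by positivity
    refine Nat.le_of_mul_le_mul_left (?_ : (p.c ^ p.kT * p.c ^ 12) * (4 * (z * w)) ≤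
      (p.c ^ p.kT * p.c ^ 12) * (p.N * Y)) hcp
    have h4 : z * w ≤ (2 * p.tau * p.d) * (10 * (p.c ^ 2 * p.B * p.q * p.sq)) :=
      Nat.mul_le_mul hz hw
    rw [hx1, pow_add] at hY
    rw [pow_add] at h3
    have h5 : 160 ≤ p.c ^ 5 := by
      calc 160 ≤ p.c := by omega
        _ = p.c ^ 1 := (pow_one _).symm
        _ ≤ p.c ^ 5 := Nat.pow_le_pow_right (by omega) (by norm_num)
    calc (p.c ^ p.kT * p.c ^ 12) * (4 * (z * w))
        ≤ (p.c ^ p.kT * p.c ^ 12) * (4 * ((2 * p.tau * p.d) *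
            (10 * (p.c ^ 2 * p.B * p.q * p.sq)))) :=
          Nat.mul_le_mul_left _ (Nat.mul_le_mul_left _ h4)
      _ = (p.c ^ p.kT * p.c ^ 12 * p.tau * p.sq * p.d) * (80 * p.c ^ 2 * (p.B * p.q)) := by ring
      _ ≤ p.N * (80 * p.c ^ 2 * (2 * (p.c ^ p.kT * p.c ^ 5) * Y)) :=
          Nat.mul_le_mul h3 (Nat.mul_le_mul_left _ hY)
      _ = (p.N * p.c ^ 2 * p.c ^ p.kT * p.c ^ 5 * Y) * 160 := by ring
      _ ≤ (p.N * p.c ^ 2 * p.c ^ p.kT * p.c ^ 5 * Y) * p.c ^ 5 := Nat.mul_le_mul_left _ h5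
      _ = (p.c ^ p.kT * p.c ^ 12) * (p.N * Y) := by ring
  have key' : (4 : ℝ) * (z * w) ≤ p.N * Y := by exact_mod_cast key
  have : (z : ℝ) / p.N * w ≤ Y / 4 := by
    rw [div_mul_eq_mul_div, div_le_iff₀ hN]
    linarith
  linarith

/-- RG1b -/
theorem RG1b (h3 : LB3_stmt) (hc : CT3_stmt) : RG1b_stmt := by
  intro p P O A V _ _ _ _ _ _ _ _ _ H v T MM v0 hA hT W hW hW0 Y k hY hk
  obtain ⟨F, hF1, hF2, hF3⟩ := RG1b_cont hc hT
  have hB : 0 < p.B := by
    have := p.N7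
    have hc : 0 < p.c := by have := p.hLog; have := p.hLam; omega
    exact lt_of_lt_of_le (pow_pos hc _) this
  have hB' : (0 : ℝ) < p.B := by exact_mod_cast hB
  set mu : P → ℝ := fun t => ((W.filter (fun x => x.1 = t)).card : ℝ) with hmu
  have hmuB : ∀ t ∈ PA H, 0 ≤ mu t ∧ mu t ≤ p.B := by
    intro t _
    refine ⟨Nat.cast_nonneg _, ?_⟩
    have : (W.filter (fun x => x.1 = t)).card ≤ p.B := by
      rw [← hA, ← Finset.card_univ]
      refine Finset.card_le_card_of_injOn (fun x => x.2) (fun _ _ => Finset.mem_univ _) ?_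
      intro x hx y hy hxy
      have h1 := (Finset.mem_filter.mp hx).2
      have h2 := (Finset.mem_filter.mp hy).2
      exact Prod.ext (h1.trans h2.symm) hxy
    simp only [hmu]
    exact_mod_cast this
  have hsum : ∀ S : Finset (P × A), S ⊆ W → ∀ D : Finset P, (∀ x ∈ S, x.1 ∈ D) →
      (S.card : ℝ) ≤ ∑ t ∈ D, mu t := by
    intro S hS D hD
    have h1 : S.card = ∑ t ∈ D, (S.filter (fun x => x.1 = t)).card :=
      Finset.card_eq_sum_card_fiberwise (fun x hx => hD x hx)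
    rw [h1]
    push_cast
    refine Finset.sum_le_sum fun t _ => ?_
    simp only [hmu]
    exact_mod_cast Finset.card_le_card (Finset.filter_subset_filter _ hS)
  have htot : ∑ t ∈ PA H, mu t = (W.card : ℝ) := by
    have h1 : W.card = ∑ t ∈ PA H, (W.filter (fun x => x.1 = t)).card :=
      Finset.card_eq_sum_card_fiberwise (fun x hx => by
        have := hW hx
        simp only [mem_XA] at this
        simpa using this)
    rw [h1]
    push_cast
    rfl
  -- one member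
  have hone : ∀ Z ∈ F, ((Psi p H v0).filter (fun φ => (Y : ℝ) ≤
      ∑ t ∈ PA H, if φ t ∈ Z then mu t else 0)).card * 2 ^ (2 * p.Lam * p.fT + k) ≤
        (Psi p H v0).card := by
    intro Z hZ
    have h := h3 p P O V H v0 hT.card_V Z (PA H) mu p.B (Y / 2) (Finset.Subset.refl _) hB' hmuB
    have hmean := RG1b_mean p Y Z.card W.card hY (hF2 Z hZ) hW0
    rw [htot] at h
    have h1 : ((Psi p H v0).filter (fun φ => (Y : ℝ) ≤
        ∑ t ∈ PA H, if φ t ∈ Z then mu t else 0)).card ≤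
        ((Psi p H v0).filter (fun φ => 2 * ((Z.card : ℝ) / p.N * W.card) + (Y / 2 : ℝ) ≤
          ∑ t ∈ PA H, if φ t ∈ Z then mu t else 0)).card := by
      refine Finset.card_le_card ?_
      intro φ hφ
      simp only [Finset.mem_filter] at hφ ⊢
      exact ⟨hφ.1, hmean.trans hφ.2⟩
    have h2 := RG1b_num p Y k hY hk
    have h3 : ((((Psi p H v0).filter (fun φ => (Y : ℝ) ≤
        ∑ t ∈ PA H, if φ t ∈ Z then mu t else 0)).card * 2 ^ (2 * p.Lam * p.fT + k) : ℕ) : ℝ) ≤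
        ((Psi p H v0).card : ℝ) := by
      push_cast
      refine le_trans (mul_le_mul (by exact_mod_cast h1) h2 (by positivity) (by positivity)) h
    exact_mod_cast h3
  refine le_trans (Nat.mul_le_mul_right _ (Finset.card_le_card ?_))
    (ub (Psi p H v0) F (fun Z φ => (Y : ℝ) ≤ ∑ t ∈ PA H, if φ t ∈ Z then mu t else 0)
      (2 * p.Lam * p.fT) k hF1 hone)
  intro φ hφ
  simp only [Finset.mem_filter] at hφ ⊢
  obtain ⟨hφ, S, hS, hpart, hind, hcard⟩ := hφ
  refine ⟨hφ, ?_⟩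
  -- the labels are independent
  have hU : IndT T (S.image (fun x => φ x.1)) := by
    intro a ha b hb hab
    obtain ⟨x, hx, rfl⟩ := Finset.mem_image.mp ha
    obtain ⟨y, hy, rfl⟩ := Finset.mem_image.mp hb
    obtain ⟨y', hy', h1, h2⟩ := hpart y hy
    have c1 := hind x hx y hy hab
    have c2 := hind x hx y' hy' (by rw [← h1]; exact hab)
    exact h2 (col_unique c1 c2 h1)
  obtain ⟨Z, hZ, hUZ⟩ := hF3 _ hU
  refine ⟨Z, hZ, ?_⟩
  have h1 : (S.card : ℝ) ≤ ∑ t ∈ (PA H).filter (fun t => φ t ∈ Z), mu t := by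
    refine hsum S hS _ ?_
    intro x hx
    simp only [Finset.mem_filter, mem_PA]
    refine ⟨?_, hUZ (Finset.mem_image_of_mem _ hx)⟩
    have := hW (hS hx)
    simpa using this
  rw [Finset.sum_filter] at h1
  have h2 : (Y : ℝ) ≤ S.card := by exact_mod_cast hcard
  exact h2.trans h1

end Pool.Agent.helper24.TG
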